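import Pool.Agent.Lib.MP_eb6a62_co.Main

/-!
# `ind_*(ℓ) = 1/e` for every `ℓ ≥ 1`

The definitions are in `Pool/Agent/Lib/MP_eb6a62_co/Defs.lean`:

* `cnt 𝒜 B` is the number of members of `𝒜` contained in `B`;
* `prob p 𝒜 ℓ` is the probability that `cnt 𝒜 B = ℓ` for the random subset `B` of a finite set
  that contains every element independently with probability `p`;
* `indStar ℓ p` is the supremum of `prob p 𝒜 ℓ` over all `n` and all families `𝒜` of nonempty
  subsets of `Fin n`.

The construction for the lower bound (found independently by two seats of the team): let `p → 0`,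
let `n` be such that `n p ≈ a`, let `1 ≪ a ≪ r`, and let `𝒟` be a sparse random family of
`(r + 1 - ℓ)`-subsets of an `n`-element set; let `𝒜` consist of all `r`-subsets that contain a
member of `𝒟`.  A set of size `r + 1` that contains exactly one member of `𝒟` contains exactly `ℓ`
members of `𝒜`.  It is much less likely that the random set has `r` elements and contains a member
of `𝒟`, or that it has more than `r + 1` elements, or that it contains two members of `𝒟`.  So if
at least one member of `𝒜` is contained in the random set, then with high probability exactly `ℓ`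
are, and the union of the right number of disjoint copies of `𝒜` gives probability almost `1/e`.

The upper bound `1 / ((1 - p) e)` is proved by revealing the elements one at a time.
-/

set_option autoImplicit false

open Filter Topology

namespace Pool.Agent.Results.MP_eb6a62_co.IndStarEqInvE

open Pool.Agent.Lib.MP_eb6a62_co

/-- For every `ℓ ≥ 1` the limit `ind_*(ℓ)` is `1/e`.  In particular `ind_*(ℓ) > 2/e²` for every
`ℓ ≥ 2`. -/
theorem result :
    (∀ ℓ : ℕ, 1 ≤ ℓ →
      Tendsto (fun p : ℝ => indStar ℓ p) (𝓝[>] 0) (𝓝 (1 / Real.exp 1))) ∧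
    (∀ ℓ : ℕ, 2 ≤ ℓ → ∃ L : ℝ,
      Tendsto (fun p : ℝ => indStar ℓ p) (𝓝[>] 0) (𝓝 L) ∧ 2 / Real.exp 1 ^ 2 < L) := by
  refine ⟨fun ℓ hℓ => tendsto_indStar hℓ, fun ℓ hℓ =>
    ⟨1 / Real.exp 1, tendsto_indStar (by omega), ?_⟩⟩
  have h : 2 < Real.exp 1 := lt_trans (by norm_num) Real.exp_one_gt_d9
  have h0 : 0 < Real.exp 1 := Real.exp_pos 1
  rw [div_lt_div_iff₀ (by positivity) h0]
  nlinarith

end Pool.Agent.Results.MP_eb6a62_co.IndStarEqInvE
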